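import Pool.Agent.H88.SWR.Fin2
import Pool.Agent.H3.W.Gdy
import Pool.Agent.H3.W2.H2.GEN.ChS
import Pool.Agent.H31.W1.H2.GEN.ChT

/-!
# The thresholds of the exchanged list at a pair

The list `c 0, c 2, c 1, c 3` is greedy with no relation of the first three coordinates. `num0_pt`,
`num1_pt`: the thresholds of the chains of the list `c`, with the exponents over all places, are at
most the levels of the greedy list, at the places 0 and 1. `num2_pt`: at the place 2, up to `ε`, if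
the threshold at the place 1 is the level up to `ε`.
-/

set_option autoImplicit false

namespace Pool.W.N88

open Finset Real MvPolynomial
open Pool.Agent.H49.Ent Pool.Agent.H32.Dense Pool.STK Pool.KA Pool.KSAT Pool.K2S Pool.PB Pool.S6C
open Pool.GEN Pool.CHT
open Pool.SWP (sw)
open Pool.LBT (LSys ThrOf)
open Pool.LEV (Law)
open Pool.ISO (lvN)

variable {m : ℕ} {S : PCl m}

/-- **Re-centring** a chain to the radius of the point. -/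
theorem rec_bas (hS : TmH S) {c : ℕ → Fin m} (r K : ℕ) (hc : Set.InjOn c (Set.Iio r)) {a w : ℝ}
    (hw : 0 < w) (hwa : w ≤ a) (ha : a < 1) {h₁ x : ℝ} (hh : 0 < h₁) (hx : 0 < x) :
    Bas S (fun J F A => ∀ (a₀ w₀ e : ℕ) (g : ℕ → ℕ), w₀ ≤ a₀ → a₀ ≤ ⌊a * J⌋₊ → w₀ ≤ ⌊w * J⌋₊ →
      (∀ l < r, (e : ℝ) + g l + (((⌊a * J⌋₊ - a₀ : ℕ) : ℝ)) + h₁ * J ≤ J) →
      Pool.W.GEN.ChN F c r (fun _ => K) a₀ w₀ e g A →
      ∃ (B : F.Ω → Prop) (g' : ℕ → ℕ) (G : PtT F → ℕ → MvPolynomial (Option (Fin m)) ℝ)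
        (H : LnT F → ℕ → MvPolynomial (Option (Fin m)) ℝ), Sub B A ∧
        Pe F.p A / 2 ≤ Pe F.p B ∧
        (∀ l < r, (g l : ℝ) + (((⌊a * J⌋₊ - a₀ : ℕ) : ℝ)) ≤ g' l + x * J) ∧
        TwoS F c r (K + 1) ⌊a * J⌋₊ ⌊w * J⌋₊ g' B G H) := by
  obtain ⟨C₁, c₀, hC₁, hslo⟩ := Pool.W.CHT.ch_slope' m r (fun _ => K + 1) (fun _ => by omega)
  have hC₁0 : 0 < C₁ := by linarith
  have hl2 : 0 < Real.log 2 := Real.log_pos one_lt_two
  have hw1 : w < 1 := hwa.trans_lt ha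
  have hw1' : 0 < 1 - w := by linarith
  obtain ⟨ψ, hψ⟩ : ∃ ψ : ℝ, ψ = min ((1 - w) * Real.log 2 / (2 * C₁))
      (x * Real.log 2 / (2 * C₁ * ((r : ℝ) + 1))) := ⟨_, rfl⟩
  have hψ0 : 0 < ψ := by rw [hψ]; exact lt_min (by positivity) (by positivity)
  have hψ1 : C₁ * ψ ≤ (1 - w) * Real.log 2 / 2 := by
    have h1 : ψ ≤ (1 - w) * Real.log 2 / (2 * C₁) := by rw [hψ]; exact min_le_left _ _
    have h2 : C₁ * ((1 - w) * Real.log 2 / (2 * C₁)) = (1 - w) * Real.log 2 / 2 := by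
      field_simp
    rw [← h2]
    exact mul_le_mul_of_nonneg_left h1 hC₁0.le
  have hψ2 : ((r : ℝ) + 1) * (C₁ * ψ) ≤ x * Real.log 2 / 2 := by
    have h1 : ψ ≤ x * Real.log 2 / (2 * C₁ * ((r : ℝ) + 1)) := by rw [hψ]; exact min_le_right _ _
    have h2 : ((r : ℝ) + 1) * (C₁ * (x * Real.log 2 / (2 * C₁ * ((r : ℝ) + 1)))) =
        x * Real.log 2 / 2 := by
      field_simp
    rw [← h2]
    exact mul_le_mul_of_nonneg_left (mul_le_mul_of_nonneg_left h1 hC₁0.le) (by positivity)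
  obtain ⟨D, hD⟩ : ∃ D : ℝ, D = ((r : ℝ) + 1) * (C₁ / Real.log 2 + 1) + 1 := ⟨_, rfl⟩
  obtain ⟨J₁, hJ₁⟩ := exists_nat_ge (D / (x / 2))
  obtain ⟨J₂, hJ₂⟩ := exists_nat_ge (2 * C₁ / ((1 - w) * Real.log 2))
  obtain ⟨J₃, hJ₃⟩ := exists_nat_ge ((c₀ : ℝ) / h₁)
  have hpos : Bas S (fun J F A => 0 < Pe F.p A) := ⟨1, one_pos, 0, fun J _ F A hA => hS.1 _ _ _ _ hA⟩
  refine Bas.mono (max J₁ (max J₂ J₃)) (hpos.and (hS.2 ψ hψ0)) ?_
  rintro J hJ F A ⟨hA, hTm⟩ a₀ w₀ e g hwa₀ ha₀ hw₀ hroom hch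
  have hJ0 : (0 : ℝ) ≤ J := Nat.cast_nonneg J
  have hJ1 : D ≤ x / 2 * J := by
    have h1 : (J₁ : ℝ) ≤ J := by exact_mod_cast (le_max_left _ _).trans hJ
    have h2 := hJ₁.trans h1
    rw [div_le_iff₀ (by linarith)] at h2
    linarith
  have hJ2 : 2 * C₁ ≤ (1 - w) * Real.log 2 * J := by
    have h1 : (J₂ : ℝ) ≤ J := by
      exact_mod_cast ((le_max_left _ _).trans (le_max_right _ _)).trans hJ
    have h2 := hJ₂.trans h1
    rw [div_le_iff₀ (by positivity)] at h2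
    linarith
  have hJ3 : (c₀ : ℝ) ≤ h₁ * J := by
    have h1 : (J₃ : ℝ) ≤ J := by
      exact_mod_cast ((le_max_right _ _).trans (le_max_right _ _)).trans hJ
    have h2 := hJ₃.trans h1
    rw [div_le_iff₀ hh] at h2
    linarith
  obtain ⟨v, hv⟩ : ∃ v, v = ⌊a * J⌋₊ - a₀ := ⟨_, rfl⟩
  rw [← hv] at hroom ⊢
  have haJ : ⌊a * J⌋₊ ≤ J := Pool.LBT.fl_le' ha.le J
  have hwJ : ⌊w * J⌋₊ ≤ J := Pool.LBT.fl_le' hw1.le J
  obtain ⟨u, hu⟩ : ∃ u : ℕ, u = ⌈C₁ * (ψ * J + 1) / Real.log 2⌉₊ := ⟨_, rfl⟩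
  have hu1 : Real.exp (C₁ * (ψ * J + 1)) ≤ 2 ^ u := by
    have e1 : C₁ * (ψ * J + 1) / Real.log 2 ≤ u := by rw [hu]; exact Nat.le_ceil _
    rw [div_le_iff₀ hl2] at e1
    have e2 : (2 : ℝ) ^ u = Real.exp (u * Real.log 2) := by
      rw [mul_comm, Real.exp_mul, Real.exp_log (by norm_num), Real.rpow_natCast]
    rw [e2]
    exact Real.exp_le_exp.2 e1
  have hu2 : ((r * u + 1 : ℕ) : ℝ) ≤ x * J := by
    have e1 : (u : ℝ) < C₁ * (ψ * J + 1) / Real.log 2 + 1 := by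
      rw [hu]
      exact Nat.ceil_lt_add_one (by positivity)
    have e2 : C₁ * (ψ * J + 1) / Real.log 2 + 1 = C₁ * ψ * J / Real.log 2 + (C₁ / Real.log 2 + 1) := by
      ring
    rw [e2] at e1
    have e3 : ((r : ℝ) + 1) * (C₁ * ψ * J / Real.log 2) ≤ x / 2 * J := by
      have e4 : ((r : ℝ) + 1) * (C₁ * ψ * J / Real.log 2) =
          (((r : ℝ) + 1) * (C₁ * ψ)) * J / Real.log 2 := by ring
      rw [e4, div_le_iff₀ hl2]
      have := mul_le_mul_of_nonneg_right hψ2 hJ0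
      nlinarith
    push_cast
    have e5 := mul_le_mul_of_nonneg_left e1.le (show (0 : ℝ) ≤ (r : ℝ) + 1 by positivity)
    have hu0 : (0 : ℝ) ≤ u := Nat.cast_nonneg u
    nlinarith
  rcases Nat.lt_or_ge v (r * u + 1) with hvu | hvu
  · obtain ⟨G, H, hG⟩ := hch
    have h1 : Pool.W.GEN.ChN F c r (fun _ => K + 1) ⌊a * J⌋₊ w₀ e g A :=
      ⟨G, H, hG.mono le_rfl (fun _ => Nat.le_succ K) ha₀ le_rfl⟩
    obtain ⟨G', H', h2⟩ := h1.win hw₀ hwJ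
    refine ⟨A, g, G', H', fun _ h => h, by linarith, fun l _ => ?_, twoS_of h2⟩
    have h3 : (v : ℝ) ≤ ((r * u + 1 : ℕ) : ℝ) := by exact_mod_cast hvu.le
    linarith
  · obtain ⟨G, H, hG⟩ := hch
    have hG' := hG.mono le_rfl (K' := fun _ => K + 1) (fun _ => Nat.le_succ K) le_rfl le_rfl
    obtain ⟨B, hB, hP, hch', -⟩ := hslo J F c a₀ w₀ e v u g A G H (ψ * J) hA hc hwa₀
      (hwa₀.trans (ha₀.trans haJ)) (fun i hi => by
        have h1 := hroom i hi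
        have h2 : ((e + g i + v + c₀ : ℕ) : ℝ) ≤ J := by
          push_cast
          linarith
        exact_mod_cast h2) hvu (by positivity) (hTm hA) (by
        have e1 : (w₀ : ℝ) ≤ w * J := by
          have e2 : (w₀ : ℝ) ≤ ⌊w * J⌋₊ := by exact_mod_cast hw₀
          exact e2.trans (Nat.floor_le (by positivity))
        have e3 : (1 - w) * J * Real.log 2 ≤ ((J : ℝ) - w₀) * Real.log 2 :=
          mul_le_mul_of_nonneg_right (by linarith) hl2.le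
        have e4 := mul_le_mul_of_nonneg_right hψ1 hJ0
        nlinarith) hu1 hG'
    have h1 : Pool.W.GEN.ChN F c r (fun _ => K + 1) (a₀ + v) w₀ (e + c₀)
        (fun i => g i + v - (i + 1) * u) B := ⟨_, _, hch'⟩
    obtain ⟨G', H', h2⟩ := h1.win hw₀ hwJ
    rw [show a₀ + v = ⌊a * J⌋₊ by omega] at h2
    refine ⟨B, _, G', H', hB, hP, fun l hl => ?_, twoS_of h2⟩
    have h3 : (l + 1) * u ≤ r * u := Nat.mul_le_mul_right u hl
    have h4 : g l + v ≤ (g l + v - (l + 1) * u) + (r * u + 1) := by omega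
    have h5 : ((g l + v : ℕ) : ℝ) ≤ (((g l + v - (l + 1) * u) + (r * u + 1) : ℕ) : ℝ) := by
      exact_mod_cast h4
    push_cast at h5 hu2 ⊢
    linarith

/-- **No chain** of the list `c` with `i + 1` places is better than the numbers `s`. -/
def NoB (S : PCl m) (c : ℕ → Fin m) (i : ℕ) (s : ℕ → ℝ) (a w : ℝ) : Prop :=
  ∀ (K : ℕ) (h₁ : ℝ), 0 < h₁ → Bas S (fun J F A => ∀ (a₀ w₀ e : ℕ) (g : ℕ → ℕ), w₀ ≤ a₀ →
    a₀ ≤ ⌊a * J⌋₊ → w₀ ≤ ⌊w * J⌋₊ →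
    (∀ l ≤ i, (e : ℝ) + g l + (((⌊a * J⌋₊ - a₀ : ℕ) : ℝ)) + h₁ * J ≤ J) →
    (s i + h₁) * J ≤ g i + (((⌊a * J⌋₊ - a₀ : ℕ) : ℝ)) →
    ¬ Pool.W.GEN.ChN F c (i + 1) (fun _ => K) a₀ w₀ e g A)

/-- **The levels of the chains** of the list `c`. -/
theorem lvl_le {c : ℕ → Fin m} {s : ℕ → ℝ} {a w E : ℝ} (ha0 : 0 ≤ a) {i : ℕ}
    (hno : ∀ j ≤ i, NoB S c j s a w) (hlow : ∀ l ≤ i, a ≤ s l) {h : ℝ} (hh : 0 < h)
    (hroom : ∀ l ≤ i, s l + E + 8 * h ≤ 1) (K : ℕ) :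
    Bas S (fun J F A => ∀ (a₀ w₀ e : ℕ) (g : ℕ → ℕ), w₀ ≤ a₀ → a₀ ≤ ⌊a * J⌋₊ →
      w₀ ≤ ⌊w * J⌋₊ → (e : ℝ) ≤ E * J → Pool.W.GEN.ChN F c (i + 1) (fun _ => K) a₀ w₀ e g A →
      ∀ l ≤ i, (g l : ℝ) + (((⌊a * J⌋₊ - a₀ : ℕ) : ℝ)) ≤ (s l + 2 * h) * J) := by
  classical
  have hall := Bas.all (S := S) (i + 1) (fun j hj => hno j (by omega) K h hh)
  obtain ⟨J₁, hJ₁⟩ := exists_nat_ge (1 / h)
  refine hall.mono J₁ ?_
  intro J hJ F A hno' a₀ w₀ e g k1 k2 k3 k4 hch l hl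
  have hJ0 : (0 : ℝ) ≤ J := Nat.cast_nonneg J
  have hJ1 : 1 ≤ h * J := by
    have h1 : (J₁ : ℝ) ≤ J := by exact_mod_cast hJ
    have h2 := hJ₁.trans h1
    rw [div_le_iff₀ hh] at h2
    linarith
  obtain ⟨v, hv⟩ : ∃ v, v = ⌊a * J⌋₊ - a₀ := ⟨_, rfl⟩
  rw [← hv]
  obtain ⟨T, hT⟩ : ∃ T : ℕ → ℕ, T = fun l => ⌊(s l + 2 * h) * J⌋₊ := ⟨_, rfl⟩
  have hTf : ∀ l ≤ i, (T l : ℝ) ≤ (s l + 2 * h) * J := fun l hl => by
    rw [hT]
    refine Nat.floor_le (mul_nonneg ?_ hJ0)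
    linarith [hlow l hl]
  have hTl : ∀ l, (s l + h) * J ≤ T l := fun l => by
    have e1 := Nat.lt_floor_add_one ((s l + 2 * h) * (J : ℝ))
    have e2 : T l = ⌊(s l + 2 * h) * J⌋₊ := by rw [hT]
    rw [e2]
    have e3 : (s l + 2 * h) * (J : ℝ) = (s l + h) * J + h * J := by ring
    linarith
  have hTv : ∀ l ≤ i, v ≤ T l := fun l hl => by
    have e1 : ⌊a * J⌋₊ ≤ T l := by
      rw [hT]
      refine Nat.floor_le_floor (mul_le_mul_of_nonneg_right ?_ hJ0)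
      linarith [hlow l hl]
    omega
  by_contra hcon
  push Not at hcon
  have hexi : ∃ l, l ≤ i ∧ T l ≤ g l + v := by
    refine ⟨l, hl, ?_⟩
    have e1 := (hTf l hl).trans hcon.le
    exact_mod_cast e1
  obtain ⟨j, hj⟩ : ∃ j, j = Nat.find hexi := ⟨_, rfl⟩
  have hj1 : j ≤ i ∧ T j ≤ g j + v := by
    rw [hj]
    exact Nat.find_spec hexi
  have hj2 : ∀ l < j, g l + v < T l := by
    intro l hl
    have := Nat.find_min hexi (by rw [hj] at hl; exact hl)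
    omega
  obtain ⟨g', hg'⟩ : ∃ g' : ℕ → ℕ, g' = fun l => if l = j then T j - v else g l := ⟨_, rfl⟩
  have hgj : g' j = T j - v := by rw [hg']; exact if_pos rfl
  have hgl : ∀ l, l ≠ j → g' l = g l := fun l hl => by rw [hg']; exact if_neg hl
  have hch2 : Pool.W.GEN.ChN F c (j + 1) (fun _ => K) a₀ w₀ e g' A := by
    obtain ⟨G, H, hG⟩ := hch
    have h6 : Pool.W.GEN.ChN F c (j + 1) (fun _ => K) a₀ w₀ e g A :=
      ⟨G, H, hG.mono (by omega) (fun _ => le_rfl) le_rfl le_rfl⟩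
    refine h6.last (fun l hl => hgl l (by omega)) fun l hl => ?_
    have : l = j := by omega
    subst this
    rw [hgj]
    have := hTv l hj1.1
    omega
  refine hno' j (by omega) a₀ w₀ e g' k1 k2 k3 (fun l hl => ?_) ?_ hch2
  · rw [← hv]
    have e1 : g' l + v ≤ T l := by
      rcases Nat.eq_or_lt_of_le hl with h6 | h6
      · rw [h6, hgj]
        have := hTv j hj1.1
        omega
      · rw [hgl l (by omega)]
        exact (hj2 l h6).le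
    have e2 : (g' l : ℝ) + v ≤ (s l + 2 * h) * J :=
      le_trans (by exact_mod_cast e1) (hTf l (by omega))
    have e4 : (s l + 2 * h) * (J : ℝ) ≤ (1 - E - 6 * h) * J := by
      have := hroom l (by omega)
      exact mul_le_mul_of_nonneg_right (by linarith) hJ0
    nlinarith
  · rw [← hv]
    have e1 : T j ≤ g' j + v := by
      rw [hgj]
      have := hTv j hj1.1
      omega
    have e2 : (T j : ℝ) ≤ g' j + v := by exact_mod_cast e1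
    exact (hTl j).trans e2

theorem lipE_le {θ : ℝ} (hθ : 0 < θ) {w : ℝ} (hw : 0 ≤ w) (K J : ℕ) :
    ((lipE θ K ⌊w * J⌋₊ J : ℕ) : ℝ) ≤ θ * w * J := by
  have hJ0 : (0 : ℝ) ≤ J := Nat.cast_nonneg J
  have hwJf : ((⌊w * J⌋₊ : ℕ) : ℝ) ≤ w * J := Nat.floor_le (by positivity)
  have e1 : ((lipE θ K ⌊w * J⌋₊ J : ℕ) : ℝ) ≤ |θ| * ⌊w * J⌋₊ := by
    unfold lipE
    rcases le_or_gt 0 (|θ| * (⌊w * J⌋₊ : ℝ) - (J : ℝ) / (K + 1)) with h6 | h6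
    · have h7 := Nat.floor_le h6
      have : 0 ≤ (J : ℝ) / (K + 1) := by positivity
      linarith
    · rw [Nat.floor_of_nonpos h6.le, Nat.cast_zero]
      positivity
  rw [abs_of_pos hθ] at e1
  have e2 := mul_le_mul_of_nonneg_left hwJf hθ.le
  linarith

/-- A label of the system as a chain of the list `c`. -/
theorem cht_out {θ : ℝ} {c : ℕ → Fin m} {j K a w P J : ℕ} {F : Fam m J} {A : F.Ω → Prop}
    (hT : Pool.W.CHT.Cht θ ((List.range j).map c) (c j) K a w P J F A) :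
    ∃ (a₀ w₀ : ℕ) (g : ℕ → ℕ), w₀ ≤ a₀ ∧ a₀ ≤ a ∧ w₀ ≤ w ∧ P + a₀ ≤ g j + a ∧
      Pool.W.GEN.ChN F c (j + 1) (fun _ => K) a₀ w₀ (lipE θ K w J) g A := by
  obtain ⟨a₀, w₀, g, h1, h2, h3, h4, h5, hch⟩ := hT
  have hlen : ((List.range j).map c).length = j := by simp
  rw [hlen] at h4 h5 hch
  refine ⟨a₀, w₀, g, h1, h2, h3, h4, ?_⟩
  refine Pool.W.CHT.ChN.congr hch (fun l hl => ?_) fun _ _ => rfl
  rcases Nat.lt_or_ge l j with h6 | h6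
  · simp [h6]
  · have : l = j := by omega
    subst this
    simp

/-- **The thresholds** are at most the numbers `s`. -/
theorem thr_le_s {θ : ℝ} (hθ : 0 < θ) (hS : S.Ne) {P : List (Fin m) × Fin m → ℝ → ℝ → ℝ}
    (hP : ThrOf (Pool.W.CHT.chsys m θ) S P) {c : ℕ → Fin m} {s : ℕ → ℝ} {a w : ℝ} (hw : 0 < w)
    (hwa : w ≤ a) (ha : a < 1) {j : ℕ} (hno : ∀ i ≤ j, NoB S c i s a w)
    (hlow : ∀ l ≤ j, a ≤ s l) (hlt : ∀ l ≤ j, s l + θ * w < 1) : bet P c j a w ≤ s j := by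
  classical
  by_contra hcon
  push Not at hcon
  obtain ⟨p, hp⟩ : ∃ p, p = P ((List.range j).map c, c j) a w := ⟨_, rfl⟩
  have hbp : bet P c j a w = p := by rw [hp]; rfl
  rw [hbp] at hcon
  obtain ⟨h0, hh00, hh01⟩ := fin_pos (j + 1) (f := fun l => (1 - θ * w - s l) / 8)
    fun l hl => by
      have := hlt l (by omega)
      linarith
  obtain ⟨h, hh⟩ : ∃ h, h = min ((p - s j) / 8) h0 := ⟨_, rfl⟩
  have hh0 : 0 < h := by rw [hh]; exact lt_min (by linarith) hh00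
  have hh1 : 8 * h ≤ p - s j := by
    have : h ≤ (p - s j) / 8 := by rw [hh]; exact min_le_left _ _
    linarith
  have hh2 : ∀ l ≤ j, s l + θ * w + 8 * h ≤ 1 := fun l hl => by
    have h1 : h ≤ h0 := by rw [hh]; exact min_le_right _ _
    have h2 := hh01 l (by omega)
    linarith
  obtain ⟨K, hK⟩ := hP.att ((List.range j).map c, c j) a w h hw hwa ha.le hh0 (by
    rw [← hp]
    linarith [hlow j le_rfl])
  rw [← hp] at hK
  have hlv := lvl_le (E := θ * w) (hw.le.trans hwa) hno hlow hh0 hh2 K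
  obtain ⟨J₁, hJ₁⟩ := exists_nat_ge (1 / h)
  refine Clp.not_false hS (Bas.clp ((hK.and hlv).mono (max J₁ 1) ?_))
  rintro J hJ F A ⟨hT, hlv⟩
  have hJ0 : (0 : ℝ) ≤ J := Nat.cast_nonneg J
  have hJ1 : 1 ≤ h * J := by
    have h1 : (J₁ : ℝ) ≤ J := by exact_mod_cast (le_max_left _ _).trans hJ
    have h2 := hJ₁.trans h1
    rw [div_le_iff₀ hh0] at h2
    linarith
  obtain ⟨a₀, w₀, g, k1, k2, k3, k4, k5⟩ := cht_out hT
  have h1 := hlv a₀ w₀ _ g k1 k2 k3 (lipE_le hθ hw.le K J) k5 j le_rfl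
  have h2 := Nat.lt_floor_add_one ((p - h) * (J : ℝ))
  have h3 : ((⌊(p - h) * J⌋₊ : ℕ) : ℝ) ≤ g j + (((⌊a * J⌋₊ - a₀ : ℕ) : ℝ)) := by
    have : ⌊(p - h) * J⌋₊ ≤ g j + (⌊a * J⌋₊ - a₀) := by omega
    exact_mod_cast this
  have h4 : (p - h) * J < (s j + 2 * h) * J + 1 := by linarith
  have h5 : (s j + 7 * h) * J ≤ (p - h) * J := mul_le_mul_of_nonneg_right (by linarith) hJ0
  nlinarith

/-- **The first two places.** -/
theorem noB01 {S₀ : ℕ} (hS₀ : 1 ≤ S₀) (htm : TmH S) {P : List (Fin m) × Fin m → ℝ → ℝ → ℝ}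
    {θ : ℝ} (hP : ThrOf (Pool.CHT.chsys m θ) S P) (hθ : 0 < θ) {c : ℕ → Fin m}
    (hinj : Set.InjOn c (Set.Iio 4)) {Pt : ℝ → ℝ → ℝ} (hPt : Law Pt) {Eb a w : ℝ} (hw : 0 < w)
    (hwa : w ≤ a) (ha : a < 1) (hd : Pool.PKG.PtI S P θ (fun l => c (sw 1 l)) 3 Pt S₀ Eb a w)
    {i : ℕ} (hi : i < 2) {s : ℕ → ℝ}
    (hs : s i = lvN P (fun l => c (sw 1 l)) 3 Pt (sw 1 i) a w) : NoB S c i s a w := by
  intro K h₁ hh₁
  obtain ⟨D, hD, hgdy⟩ := Pool.W.ISO.gdy_pt S₀ hS₀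
  obtain ⟨C, hC, hfin⟩ := fin01 (K + 1) i hi
  have hC0 : (0 : ℝ) < C := by exact_mod_cast hC
  obtain ⟨y, hy⟩ : ∃ y : ℝ, y = h₁ / (8 * C) := ⟨_, rfl⟩
  have hy0 : 0 < y := by rw [hy]; positivity
  have hyC : C * y = h₁ / 8 := by
    rw [hy]
    field_simp
  have hinj4 : Set.InjOn (fun l => c (sw 1 l)) (Set.Iio 4) := by
    intro x hx y hy h
    have hx' : x < 4 := hx
    have hy' : y < 4 := hy
    have h1 : sw 1 x < 4 := Pool.SWP.sw_mem (by norm_num) hx'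
    have h2 : sw 1 y < 4 := Pool.SWP.sw_mem (by norm_num) hy'
    have h3 := hinj h1 h2 h
    have h4 := Pool.SWP.sw_sw 1 x
    rw [h3, Pool.SWP.sw_sw] at h4
    exact h4.symm
  obtain ⟨K₁, hK₁, hg⟩ := hgdy (max (K + 1) D) hP hθ htm hinj4 hPt hd y hy0
  have hg' := hg (1 / 64) (by norm_num)
  have hrec := bas_ev (rec_bas htm (i + 1) K (hinj.mono (Set.Iio_subset_Iio (by omega))) hw hwa ha
    hh₁ (show 0 < h₁ / 4 by linarith)) (show 0 < 1 / K₁ by positivity)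
  have hpos : Bas S (fun J F A => 0 < Pe F.p A) := ⟨1, one_pos, 0, fun J _ F A hA => htm.1 _ _ _ _ hA⟩
  obtain ⟨J₁, hJ₁⟩ := exists_nat_gt ((C : ℝ) / (h₁ / 8))
  refine Bas.mono J₁ (hpos.and (hg'.and hrec)) ?_
  rintro J hJ F A ⟨hA, ⟨B₀, g₀, G, H, b1, b2, b3, b4, b5⟩, hrec⟩ a₀ w₀ e g k1 k2 k3 k4 k5 hch
  have hJ0 : (0 : ℝ) ≤ J := Nat.cast_nonneg J
  have hJ1 : (C : ℝ) < h₁ / 8 * J := by
    have h1 : (J₁ : ℝ) ≤ J := by exact_mod_cast hJ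
    have h2 := hJ₁.trans_le h1
    rw [div_lt_iff₀ (by linarith)] at h2
    linarith
  have hPB : 1 / K₁ * Pe F.p A ≤ Pe F.p B₀ := by
    rw [one_div, inv_mul_le_iff₀ hK₁]
    exact b2
  have hPB0 : 0 < Pe F.p B₀ := lt_of_lt_of_le (by positivity) hPB
  obtain ⟨B', g', Γ, ΓH, r1, r2, r3, r4⟩ := hrec B₀ b1 hPB a₀ w₀ e g k1 k2 k3
    (fun l hl => k4 l (by omega)) (Pool.W.GEN.ChN.hered F _ _ _ _ _ _ _ A B₀ b1 hch)
  have h1 := hfin (κ := 1 / 64) (κ' := 1 / 2) hinj (le_max_left _ _) (hD.trans (le_max_right _ _))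
    b4.depG b5 r1 (lt_of_lt_of_le (by positivity) r2) (by linarith) (by
      have h5 : (2 : ℝ) ^ (i + 1) ≤ 2 ^ 2 := pow_le_pow_right₀ (by norm_num) (by omega)
      linarith) r4
  have h2 := (b3 (sw 1 i) (by
    have := Pool.SWP.sw_mem (k := 1) (i := i) (n := 4) (by norm_num) (by omega)
    omega)).2
  rw [← hs] at h2
  have h3 := r3 i (by omega)
  have h4 : (g' i : ℝ) ≤ g₀ (sw 1 i) + C * (y * J + 1) := by
    have h5 : (g' i : ℝ) ≤ ((g₀ (sw 1 i) + C * (⌊y * J⌋₊ + 1) : ℕ) : ℝ) := by exact_mod_cast h1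
    push_cast at h5
    have h6 : ((⌊y * J⌋₊ : ℕ) : ℝ) ≤ y * J := Nat.floor_le (by positivity)
    have h7 : (C : ℝ) * (⌊y * J⌋₊ + 1) ≤ C * (y * J + 1) :=
      mul_le_mul_of_nonneg_left (by linarith) hC0.le
    linarith
  have e1 : (C : ℝ) * (y * J + 1) = h₁ / 8 * J + C := by
    rw [mul_add, ← mul_assoc, hyC, mul_one]
  have e2 : (s i + h₁) * J = s i * J + h₁ * J := by ring
  have e3 : h₁ * (J : ℝ) = h₁ / 4 * J + h₁ / 8 * J + h₁ / 8 * J + h₁ / 2 * J := by ring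
  have e4 : 0 ≤ h₁ / 2 * (J : ℝ) := by positivity
  linarith

/-- **The third place**, if the threshold at the place 1 is the level up to `ε`. -/
theorem noB2 {S₀ : ℕ} (hS₀ : 1 ≤ S₀) (htm : TmH S) {P PW : List (Fin m) × Fin m → ℝ → ℝ → ℝ}
    {θ θ' : ℝ} (hP : ThrOf (Pool.CHT.chsys m θ) S P) (hθ : 0 < θ) {c : ℕ → Fin m}
    (hinj : Set.InjOn c (Set.Iio 4)) {Pt : ℝ → ℝ → ℝ} (hPt : Law Pt)
    (hW : ThrOf (Pool.W.CHT.chsys m θ') S PW) (hθ' : 0 < θ') {Eb a w ε : ℝ} (hw : 0 < w)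
    (hwa : w ≤ a) (ha : a < 1) (hd : Pool.PKG.PtI S P θ (fun l => c (sw 1 l)) 3 Pt S₀ Eb a w)
    {s : ℕ → ℝ} (hs : ∀ i < 2, s i = lvN P (fun l => c (sw 1 l)) 3 Pt (sw 1 i) a w)
    (hs2 : s 2 = lvN P (fun l => c (sw 1 l)) 3 Pt 1 a w + ε) (hlow : ∀ i < 2, a ≤ s i)
    (hroom : ∀ i < 2, s i + θ' * w < 1) (hε : 0 ≤ ε) (hX : s 1 ≤ bet PW c 1 a w + ε) :
    NoB S c 2 s a w := by
  intro K h₁ hh₁
  have ha0 : 0 < a := hw.trans_le hwa
  obtain ⟨D, hD, hgdy⟩ := Pool.W.ISO.gdy_pt S₀ hS₀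
  -- the label of the second place over the first one
  obtain ⟨p, hp⟩ : ∃ p, p = PW ((List.range 1).map c, c 1) a w := ⟨_, rfl⟩
  have hbp : bet PW c 1 a w = p := by rw [hp]; rfl
  rw [hbp] at hX
  have hpa : a ≤ p := by
    rw [hp]
    exact hW.low _ a w hw.le hwa ha.le
  obtain ⟨h, hh⟩ : ∃ h, h = min (h₁ / 8) (min (a / 2) (min ((1 - θ' * w - s 0) / 16)
    ((1 - θ' * w - s 1) / 16))) := ⟨_, rfl⟩
  have hr0 := hroom 0 (by norm_num)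
  have hr1 := hroom 1 (by norm_num)
  have hh0 : 0 < h := by
    rw [hh]
    exact lt_min (by linarith) (lt_min (by linarith) (lt_min (by linarith) (by linarith)))
  have hha : h < p := by
    have h1 : h ≤ a / 2 := by
      rw [hh]
      exact (min_le_right _ _).trans (min_le_left _ _)
    linarith
  have hhh : h ≤ h₁ / 8 := by rw [hh]; exact min_le_left _ _
  have hhr : ∀ l ≤ 1, s l + θ' * w + 8 * h ≤ 1 - 8 * h := by
    intro l hl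
    have h2 : h ≤ (1 - θ' * w - s 0) / 16 := by
      rw [hh]
      exact (min_le_right _ _).trans ((min_le_right _ _).trans (min_le_left _ _))
    have h3 : h ≤ (1 - θ' * w - s 1) / 16 := by
      rw [hh]
      exact (min_le_right _ _).trans ((min_le_right _ _).trans (min_le_right _ _))
    rcases (show l = 0 ∨ l = 1 by omega) with rfl | rfl <;> linarith
  obtain ⟨Ks, hKs⟩ := hW.att ((List.range 1).map c, c 1) a w h hw hwa ha.le hh0 (by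
    rw [← hp]
    exact hha)
  rw [← hp] at hKs
  have hno : ∀ j ≤ 1, NoB S c j s a w := fun j hj =>
    noB01 hS₀ htm hP hθ hinj hPt hw hwa ha hd (show j < 2 by omega) (hs j (by omega))
  have hlv := lvl_le (E := θ' * w) ha0.le hno (fun l hl => hlow l (by omega)) hh0
    (fun l hl => by linarith [hhr l hl]) Ks
  obtain ⟨C, hC, hfin⟩ := fin2 (K + 1) (Ks + 1) D
  have hC0 : (0 : ℝ) < C := by exact_mod_cast hC
  obtain ⟨y, hy⟩ : ∃ y : ℝ, y = h₁ / (8 * C) := ⟨_, rfl⟩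
  have hy0 : 0 < y := by rw [hy]; positivity
  have hyC : C * y = h₁ / 8 := by
    rw [hy]
    field_simp
  have hinj4 : Set.InjOn (fun l => c (sw 1 l)) (Set.Iio 4) := by
    intro x hx y hy h
    have hx' : x < 4 := hx
    have hy' : y < 4 := hy
    have h1 : sw 1 x < 4 := Pool.SWP.sw_mem (by norm_num) hx'
    have h2 : sw 1 y < 4 := Pool.SWP.sw_mem (by norm_num) hy'
    have h3 := hinj h1 h2 h
    have h4 := Pool.SWP.sw_sw 1 x
    rw [h3, Pool.SWP.sw_sw] at h4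
    exact h4.symm
  obtain ⟨Dr, hDr⟩ : ∃ Dr, Dr = max (K + 1) (max (Ks + 1) D) := ⟨_, rfl⟩
  obtain ⟨K₁, hK₁, hg⟩ := hgdy Dr hP hθ htm hinj4 hPt hd y hy0
  have hg' := hg (1 / 128) (by norm_num)
  have hrec := bas_ev (rec_bas htm 3 K (hinj.mono (Set.Iio_subset_Iio (by norm_num))) hw hwa ha
    hh₁ (show 0 < h₁ / 8 by linarith)) (show 0 < 1 / K₁ by positivity)
  have hrec2 := bas_ev (rec_bas htm 2 Ks (hinj.mono (Set.Iio_subset_Iio (by norm_num))) hw hwa ha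
    hh0 (show 0 < h₁ / 8 by linarith)) (show 0 < 1 / K₁ / 2 by positivity)
  have hpos : Bas S (fun J F A => 0 < Pe F.p A) := ⟨1, one_pos, 0, fun J _ F A hA => htm.1 _ _ _ _ hA⟩
  obtain ⟨J₁, hJ₁⟩ := exists_nat_gt (((C : ℝ) + 4) / (h₁ / 8))
  refine Bas.mono J₁ ((hpos.and (hKs.and hlv)).and (hg'.and (hrec.and hrec2))) ?_
  rintro J hJ F A ⟨⟨hA, hT, hlv⟩, ⟨B₀, g₀, G, H, b1, b2, b3, b4, b5⟩, hrec, hrec2⟩ a₀ w₀ e g
    k1 k2 k3 k4 k5 hch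
  have hJ0 : (0 : ℝ) ≤ J := Nat.cast_nonneg J
  have hJ1 : (C : ℝ) + 4 < h₁ / 8 * J := by
    have h1 : (J₁ : ℝ) ≤ J := by exact_mod_cast hJ
    have h2 := hJ₁.trans_le h1
    rw [div_lt_iff₀ (by linarith)] at h2
    linarith
  have hPB : 1 / K₁ * Pe F.p A ≤ Pe F.p B₀ := by
    rw [one_div, inv_mul_le_iff₀ hK₁]
    exact b2
  have hPB0 : 0 < Pe F.p B₀ := lt_of_lt_of_le (by positivity) hPB
  obtain ⟨B₁, g₁, Γ, ΓH, r1, r2, r3, r4⟩ := hrec B₀ b1 hPB a₀ w₀ e g k1 k2 k3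
    (fun l hl => k4 l (by omega)) (Pool.W.GEN.ChN.hered F _ _ _ _ _ _ _ A B₀ b1 hch)
  have hPB1 : 0 < Pe F.p B₁ := lt_of_lt_of_le (by positivity) r2
  -- the chain of the second place
  obtain ⟨a₂, w₂, g₂, t1, t2, t3, t4, t5⟩ := cht_out hT
  have hlv2 := hlv a₂ w₂ _ g₂ t1 t2 t3 (lipE_le hθ' hw.le Ks J) t5
  obtain ⟨B₂, g₃, U, UH, u1, u2, u3, u4⟩ := hrec2 B₁ (fun ω hω => b1 ω (r1 ω hω)) (by
      have e1 : 1 / K₁ / 2 * Pe F.p A = 1 / K₁ * Pe F.p A / 2 := by ring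
      rw [e1]
      linarith) a₂ w₂ (lipE θ' Ks ⌊w * J⌋₊ J) g₂ t1 t2 t3 (fun l hl => by
      have e1 := hlv2 l (by omega)
      have e2 := lipE_le hθ' hw.le Ks J
      have e3 := hhr l (by omega)
      have e4 : (s l + θ' * w + 16 * h) * J ≤ 1 * J :=
        mul_le_mul_of_nonneg_right (by linarith) hJ0
      have e5 : 0 ≤ h * (J : ℝ) := by positivity
      nlinarith) (Pool.W.GEN.ChN.hered F _ _ _ _ _ _ _ A B₁ (fun ω hω => b1 ω (r1 ω hω)) t5)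
  have hPB2 : 0 < Pe F.p B₂ := lt_of_lt_of_le (by positivity) u2
  -- the level of the second place
  obtain ⟨q, hq⟩ : ∃ q : ℕ, q = ⌈(ε + h + h₁ / 8) * J⌉₊ + 1 := ⟨_, rfl⟩
  have hq1 : (ε + h + h₁ / 8) * J + 1 ≤ q := by
    rw [hq]
    push_cast
    have := Nat.le_ceil ((ε + h + h₁ / 8) * (J : ℝ))
    linarith
  have hq2 : (q : ℝ) ≤ (ε + h + h₁ / 8) * J + 2 := by
    rw [hq]
    push_cast
    have := Nat.ceil_lt_add_one (show 0 ≤ (ε + h + h₁ / 8) * (J : ℝ) by positivity)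
    linarith
  have hlev : g₀ 2 ≤ g₃ 1 + q := by
    have e1 := (b3 2 (by norm_num)).2
    have e2 : lvN P (fun l => c (sw 1 l)) 3 Pt 2 a w = s 1 := (hs 1 (by norm_num)).symm
    rw [e2] at e1
    have e3 := u3 1 (by norm_num)
    have e4 := Nat.lt_floor_add_one ((p - h) * (J : ℝ))
    have e5 : ((⌊(p - h) * J⌋₊ : ℕ) : ℝ) ≤ g₂ 1 + (((⌊a * J⌋₊ - a₂ : ℕ) : ℝ)) := by
      have : ⌊(p - h) * J⌋₊ ≤ g₂ 1 + (⌊a * J⌋₊ - a₂) := by omega
      exact_mod_cast this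
    have e6 : s 1 * J ≤ (p + ε) * J := mul_le_mul_of_nonneg_right hX hJ0
    have e7 : (g₀ 2 : ℝ) ≤ ((g₃ 1 + q : ℕ) : ℝ) := by
      push_cast
      nlinarith
    exact_mod_cast e7
  have h1 := hfin (κ := 1 / 128) (κ' := 1 / 4) (p := q) (Dr := Dr) hinj
    (by rw [hDr]; exact le_max_left _ _)
    (by rw [hDr]; exact (le_max_left _ _).trans (le_max_right _ _))
    (by rw [hDr]; exact (le_max_right _ _).trans (le_max_right _ _))
    (by rw [hDr]; exact (Nat.le_add_left 1 K).trans (le_max_left _ _))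
    b4 b5 (fun ω hω => r1 ω (u1 ω hω)) hPB2 (by linarith) (by norm_num) (by norm_num)
    (r4.sub u1) u4 hlev
  have h2 := (b3 1 (by norm_num)).2
  have h3 := r3 2 (by norm_num)
  have h4 : (g₁ 2 : ℝ) ≤ g₀ 1 + q + C * (y * J + 1) := by
    have h5 : (g₁ 2 : ℝ) ≤ ((g₀ 1 + q + C * (⌊y * J⌋₊ + 1) : ℕ) : ℝ) := by exact_mod_cast h1
    push_cast at h5
    have h6 : ((⌊y * J⌋₊ : ℕ) : ℝ) ≤ y * J := Nat.floor_le (by positivity)
    have h7 : (C : ℝ) * (⌊y * J⌋₊ + 1) ≤ C * (y * J + 1) :=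
      mul_le_mul_of_nonneg_left (by linarith) hC0.le
    linarith
  have e1 : (C : ℝ) * (y * J + 1) = h₁ / 8 * J + C := by
    rw [mul_add, ← mul_assoc, hyC, mul_one]
  rw [hs2] at k5
  have e2 : h * (J : ℝ) ≤ h₁ / 8 * J := mul_le_mul_of_nonneg_right hhh hJ0
  have e4 : 0 ≤ h₁ * (J : ℝ) := by positivity
  nlinarith

/-- **The thresholds of the exchanged list** at the places 0 and 1. -/
theorem num01_pt {S₀ : ℕ} {P PW : List (Fin m) × Fin m → ℝ → ℝ → ℝ} {θ θ' : ℝ} {c : ℕ → Fin m}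
    {Pt : ℝ → ℝ → ℝ} {a w Eb : ℝ} (hS₀ : 1 ≤ S₀) (hne : S.Ne) (htm : TmH S)
    (hP : ThrOf (Pool.CHT.chsys m θ) S P) (hθ : 0 < θ) (hinj : Set.InjOn c (Set.Iio 4))
    (hPt : Law Pt) (hW : ThrOf (Pool.W.CHT.chsys m θ') S PW) (hθ' : 0 < θ')
    (hd : Pool.PKG.PtI S P θ (fun l => c (sw 1 l)) 3 Pt S₀ Eb a w)
    (hroom : ∀ l ≤ 2, lvN P (fun l => c (sw 1 l)) 3 Pt l a w + θ' * w < 1) (i : ℕ) (hi : i < 2) :
    bet PW c i a w ≤ lvN P (fun l => c (sw 1 l)) 3 Pt (sw 1 i) a w := by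
  obtain ⟨ρ, vs, e, e₀, E, sg, Q, hd', hE, hE'⟩ := hd
  have hlow := hd'.low hP
  have hsw : ∀ l < 3, sw 1 l ≤ 2 := fun l hl => by
    rcases (show l = 0 ∨ l = 1 ∨ l = 2 by omega) with rfl | rfl | rfl <;> decide
  exact thr_le_s (s := fun i => lvN P (fun l => c (sw 1 l)) 3 Pt (sw 1 i) a w) hθ' hne hW hd'.w0
    hd'.wa hd'.a1 (fun j hj => noB01 hS₀ htm hP hθ hinj hPt hd'.w0 hd'.wa hd'.a1
      ⟨ρ, vs, e, e₀, E, sg, Q, hd', hE, hE'⟩ (by omega) rfl) (fun l _ => hlow _)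
    fun l hl => hroom _ (hsw l (by omega))

theorem num0_pt {S₀ : ℕ} {P PW : List (Fin m) × Fin m → ℝ → ℝ → ℝ} {θ θ' : ℝ} {c : ℕ → Fin m}
    {Pt : ℝ → ℝ → ℝ} {a w Eb : ℝ} (hS₀ : 1 ≤ S₀) (hne : S.Ne) (htm : TmH S)
    (hP : ThrOf (Pool.CHT.chsys m θ) S P) (hθ : 0 < θ) (hinj : Set.InjOn c (Set.Iio 4))
    (hPt : Law Pt) (hW : ThrOf (Pool.W.CHT.chsys m θ') S PW) (hθ' : 0 < θ')
    (hd : Pool.PKG.PtI S P θ (fun l => c (sw 1 l)) 3 Pt S₀ Eb a w)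
    (hroom : ∀ l ≤ 2, lvN P (fun l => c (sw 1 l)) 3 Pt l a w + θ' * w < 1) :
    bet PW c 0 a w ≤ lvN P (fun l => c (sw 1 l)) 3 Pt 0 a w :=
  num01_pt hS₀ hne htm hP hθ hinj hPt hW hθ' hd hroom 0 (by norm_num)

theorem num1_pt {S₀ : ℕ} {P PW : List (Fin m) × Fin m → ℝ → ℝ → ℝ} {θ θ' : ℝ} {c : ℕ → Fin m}
    {Pt : ℝ → ℝ → ℝ} {a w Eb : ℝ} (hS₀ : 1 ≤ S₀) (hne : S.Ne) (htm : TmH S)
    (hP : ThrOf (Pool.CHT.chsys m θ) S P) (hθ : 0 < θ) (hinj : Set.InjOn c (Set.Iio 4))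
    (hPt : Law Pt) (hW : ThrOf (Pool.W.CHT.chsys m θ') S PW) (hθ' : 0 < θ')
    (hd : Pool.PKG.PtI S P θ (fun l => c (sw 1 l)) 3 Pt S₀ Eb a w)
    (hroom : ∀ l ≤ 2, lvN P (fun l => c (sw 1 l)) 3 Pt l a w + θ' * w < 1) :
    bet PW c 1 a w ≤ lvN P (fun l => c (sw 1 l)) 3 Pt 2 a w :=
  num01_pt hS₀ hne htm hP hθ hinj hPt hW hθ' hd hroom 1 (by norm_num)

/-- **The thresholds of the exchanged list** at the place 2. -/
theorem num2_pt {S₀ : ℕ} {P PW : List (Fin m) × Fin m → ℝ → ℝ → ℝ} {θ θ' : ℝ} {c : ℕ → Fin m}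
    {Pt : ℝ → ℝ → ℝ} {a w Eb ε : ℝ} (hS₀ : 1 ≤ S₀) (hne : S.Ne) (htm : TmH S)
    (hP : ThrOf (Pool.CHT.chsys m θ) S P) (hθ : 0 < θ) (hinj : Set.InjOn c (Set.Iio 4))
    (hPt : Law Pt) (hW : ThrOf (Pool.W.CHT.chsys m θ') S PW) (hθ' : 0 < θ')
    (hd : Pool.PKG.PtI S P θ (fun l => c (sw 1 l)) 3 Pt S₀ Eb a w)
    (hroom : ∀ l ≤ 2, lvN P (fun l => c (sw 1 l)) 3 Pt l a w + θ' * w < 1)
    (hr1 : lvN P (fun l => c (sw 1 l)) 3 Pt 1 a w + ε + θ' * w < 1)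
    (hX : lvN P (fun l => c (sw 1 l)) 3 Pt 2 a w ≤ bet PW c 1 a w + ε) :
    bet PW c 2 a w ≤ lvN P (fun l => c (sw 1 l)) 3 Pt 1 a w + ε := by
  have h1 := num1_pt hS₀ hne htm hP hθ hinj hPt hW hθ' hd hroom
  have hε : 0 ≤ ε := by linarith
  obtain ⟨ρ, vs, e, e₀, E, sg, Q, hd', hE, hE'⟩ := hd
  have hd : Pool.PKG.PtI S P θ (fun l => c (sw 1 l)) 3 Pt S₀ Eb a w :=
    ⟨ρ, vs, e, e₀, E, sg, Q, hd', hE, hE'⟩
  have hlow := hd'.low hP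
  obtain ⟨s, hs⟩ : ∃ s : ℕ → ℝ, s = fun i => if i = 2 then
      lvN P (fun l => c (sw 1 l)) 3 Pt 1 a w + ε else
      lvN P (fun l => c (sw 1 l)) 3 Pt (sw 1 i) a w := ⟨_, rfl⟩
  have hs2 : s 2 = lvN P (fun l => c (sw 1 l)) 3 Pt 1 a w + ε := by
    rw [hs]
    exact if_pos rfl
  have hs' : ∀ i < 2, s i = lvN P (fun l => c (sw 1 l)) 3 Pt (sw 1 i) a w := fun i hi => by
    rw [hs]
    exact if_neg (by omega)
  have hsw : ∀ l < 2, sw 1 l ≤ 2 := fun l hl => by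
    rcases (show l = 0 ∨ l = 1 by omega) with rfl | rfl <;> decide
  have hlow' : ∀ l ≤ 2, a ≤ s l := fun l hl => by
    rcases (show l < 2 ∨ l = 2 by omega) with h2 | rfl
    · rw [hs' l h2]
      exact hlow _
    · rw [hs2]
      linarith [hlow 1]
  have hr' : ∀ l ≤ 2, s l + θ' * w < 1 := fun l hl => by
    rcases (show l < 2 ∨ l = 2 by omega) with h2 | rfl
    · rw [hs' l h2]
      exact hroom _ (hsw l h2)
    · rw [hs2]
      exact hr1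
  rw [← hs2]
  refine thr_le_s hθ' hne hW hd'.w0 hd'.wa hd'.a1 (fun j hj => ?_) hlow' hr'
  rcases (show j < 2 ∨ j = 2 by omega) with h2 | rfl
  · exact noB01 hS₀ htm hP hθ hinj hPt hd'.w0 hd'.wa hd'.a1 hd h2 (hs' j h2)
  · refine noB2 hS₀ htm hP hθ hinj hPt hW hθ' hd'.w0 hd'.wa hd'.a1 hd hs' hs2
      (fun l hl => hlow' l (by omega)) (fun l hl => hr' l (by omega)) hε ?_
    rw [hs' 1 (by norm_num)]
    exact hX

end Pool.W.N88
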