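import Pool.Agent.H2.GEN.AttF
import Pool.Agent.H31.W1.H80.GEN.Chn
import Pool.Agent.H3.SWP.Swp

/-!
# Labels of a list in another order on the boxes of a chain

`TwoS`: two-sided labels of a list, without a condition on the gradients. `mov_perm`: on the natural
box of a chain with no relation of its first `n` coordinates the labels of any list of these
coordinates are close to the coordinates, and they are two-sided. `two_pts`: two points of a box.
-/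

set_option autoImplicit false

namespace Pool.W.N88

open Finset Real MvPolynomial
open Pool.Agent.H49.Ent Pool.Agent.H32.Dense Pool.STK Pool.KA Pool.KSAT Pool.K2S Pool.PB Pool.S6C
open Pool.GEN Pool.CHT
open Pool.SWP (sw)

variable {m J : ℕ}

/-- **Two-sided labels** of the list `c`, with no condition on the gradients. -/
structure TwoS (F : Fam m J) (c : ℕ → Fin m) (r K a w : ℕ) (g : ℕ → ℕ) (A : F.Ω → Prop)
    (G : PtT F → ℕ → MvPolynomial (Option (Fin m)) ℝ)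
    (H : LnT F → ℕ → MvPolynomial (Option (Fin m)) ℝ) : Prop where
  degG : ∀ y i, (G y i).totalDegree ≤ K
  degH : ∀ s i, (H s i).totalDegree ≤ K
  depG : ∀ y i, DepC c i (G y i)
  depH : ∀ s i, DepC c i (H s i)
  pos : ∀ ω, A ω → ∀ i < r, |F.x ω (c i) - eval (bt F ω) (G (ptr F J ω) i)| ≤ 1 / 2 ^ g i
  agr : ∀ ω, A ω → ∀ i < r, ∀ b : Option (Fin m) → ℝ, NBx c (G (ptr F J ω)) g a (F.t ω) i b →
    |eval b (G (ptr F J ω) i) - eval b (H (slam F w ω) i)| ≤ 1 / 2 ^ g i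

theorem TwoS.sub {F : Fam m J} {c : ℕ → Fin m} {r K a w : ℕ} {g : ℕ → ℕ} {A B : F.Ω → Prop}
    {G : PtT F → ℕ → MvPolynomial (Option (Fin m)) ℝ}
    {H : LnT F → ℕ → MvPolynomial (Option (Fin m)) ℝ} (h : TwoS F c r K a w g A G H)
    (hB : Sub B A) : TwoS F c r K a w g B G H :=
  ⟨h.degG, h.degH, h.depG, h.depH, fun ω hω => h.pos ω (hB ω hω), fun ω hω => h.agr ω (hB ω hω)⟩

theorem twoS_of {F : Fam m J} {c : ℕ → Fin m} {r K a w e : ℕ} {g : ℕ → ℕ} {A : F.Ω → Prop}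
    {G : PtT F → ℕ → MvPolynomial (Option (Fin m)) ℝ}
    {H : LnT F → ℕ → MvPolynomial (Option (Fin m)) ℝ}
    (h : Pool.W.GEN.ChOK F c r (fun _ => K) a w e g A G H) : TwoS F c r K a w g A G H :=
  ⟨h.degG, h.degH, h.depG, h.depH, h.pos, h.agr⟩

/-- A polynomial in a coordinate of the list. -/
theorem depC_X {c₀ : ℕ → Fin m} {n : ℕ} {k : Fin m} (h : ∃ l' < n, c₀ l' = k) :
    DepC c₀ n (X (some k) : MvPolynomial (Option (Fin m)) ℝ) := by
  intro b b' _ hb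
  obtain ⟨l', h1, rfl⟩ := h
  rw [eval_X, eval_X, hb l' h1]

theorem depC_perm {c c₀ : ℕ → Fin m} {r n : ℕ} (hcc : ∀ l < r, ∃ l' < n, c₀ l' = c l)
    {i : ℕ} (hi : i ≤ r) {Q : MvPolynomial (Option (Fin m)) ℝ} (h : DepC c i Q) : DepC c₀ n Q := by
  intro b b' hn hb
  refine h b b' hn fun l hl => ?_
  obtain ⟨l', h1, h2⟩ := hcc l (hl.trans_le hi)
  rw [← h2]
  exact hb l' h1

theorem depC_sub {c₀ : ℕ → Fin m} {n : ℕ} {P Q : MvPolynomial (Option (Fin m)) ℝ}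
    (h1 : DepC c₀ n P) (h2 : DepC c₀ n Q) : DepC c₀ n (P - Q) := by
  intro b b' hn hb
  rw [map_sub, map_sub, h1 b b' hn hb, h2 b b' hn hb]

/-- **Labels of a list in another order** on the boxes of a chain with no relation. -/
theorem mov_perm (K r : ℕ) : ∃ C : ℕ, 1 ≤ C ∧ ∀ {m J : ℕ} {F : Fam m J} {c c₀ : ℕ → Fin m}
    {n a w h Dr : ℕ} {g gΓ : ℕ → ℕ} {κ κ' : ℝ} {B₀ B' : F.Ω → Prop}
    {G Γ : PtT F → ℕ → MvPolynomial (Option (Fin m)) ℝ}
    {ΓH : LnT F → ℕ → MvPolynomial (Option (Fin m)) ℝ}, Set.InjOn c (Set.Iio r) → K ≤ Dr →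
    1 ≤ Dr → (∀ l < r, ∃ l' < n, c₀ l' = c l) → RelvF F c₀ n a w g Dr h κ B₀ G → Sub B' B₀ →
    κ' * Pe F.p B₀ ≤ Pe F.p B' → κ * 2 ^ r ≤ κ' → TwoS F c r K a w gΓ B' Γ ΓH →
    ∃ B : F.Ω → Prop, Sub B B' ∧ Pe F.p B' / 2 ^ r ≤ Pe F.p B ∧ ∀ ω, B ω →
      ∀ b, NBx c₀ (G (ptr F J ω)) g a (F.t ω) n b → ∀ l < r,
        |b (some (c l)) - eval b (Γ (ptr F J ω) l)| ≤ 2 ^ (C * (h + 1)) / 2 ^ gΓ l ∧
        |eval b (Γ (ptr F J ω) l) - eval b (ΓH (slam F w ω) l)| ≤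
          2 ^ (C * (h + 1)) / 2 ^ gΓ l := by
  obtain ⟨c₁, D₁, hD₁, hdil⟩ := nbx_dil (r + 1) (fun _ => K)
  refine ⟨(c₁ + 1) * (1 + D₁) ^ (r + 1), Nat.mul_pos (by omega) (by positivity), ?_⟩
  intro m J F c c₀ n a w h Dr g gΓ κ κ' B₀ B' G Γ ΓH hc hKD hD hcc hR hB' hP' hκ hL
  have hlexC : ∀ j ≤ r + 1, lex h c₁ D₁ j ≤ (c₁ + 1) * (1 + D₁) ^ (r + 1) * (h + 1) := by
    intro j hj
    refine (lex_le h c₁ D₁ j).trans ?_
    have h1 : (1 + D₁) ^ j ≤ (1 + D₁) ^ (r + 1) := Nat.pow_le_pow_right (by omega) hj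
    calc (h + c₁) * (1 + D₁) ^ j ≤ ((c₁ + 1) * (h + 1)) * (1 + D₁) ^ (r + 1) :=
          Nat.mul_le_mul (by nlinarith) h1
      _ = _ := by ring
  have htwo : ∀ N j : ℕ, j < r → ∀ ω, B' ω → ∀ b, NBx c₀ (G (ptr F J ω)) g a (F.t ω) n b →
      (∀ j' < j, |b (some (c j')) - eval b (Γ (ptr F J ω) j')| ≤ 2 ^ N / 2 ^ gΓ j') →
      |eval b (Γ (ptr F J ω) j) - eval b (ΓH (slam F w ω) j)| ≤
        2 ^ (c₁ + N * D₁) * (1 / 2 ^ gΓ j) := by
    intro N j hj ω hω b hb hbj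
    have h1 := hdil (c := c) (i := j) (G := Γ (ptr F J ω))
      (Q := Γ (ptr F J ω) j - ΓH (slam F w ω) j) (g := gΓ) (a := a) (t := F.t ω)
      (M := 1 / 2 ^ gΓ j) N (by omega) (hc.mono (Set.Iio_subset_Iio hj.le))
      (hL.degG _) (hL.depG _)
      (fun y y' hn hy => by rw [map_sub, map_sub, hL.depG _ j y y' hn hy, hL.depH _ j y y' hn hy])
      ((totalDegree_sub _ _).trans (max_le (hL.degG _ j) (hL.degH _ j))) (by positivity)
      (fun b hb => by rw [map_sub]; exact hL.agr ω hω j hj b hb) b hb.1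
      (fun j' hj' => hbj j' hj')
    rw [map_sub] at h1
    exact h1
  have key : ∀ j ≤ r, ∃ B : F.Ω → Prop, Sub B B' ∧ Pe F.p B' / 2 ^ j ≤ Pe F.p B ∧ ∀ ω, B ω →
      ∀ b, NBx c₀ (G (ptr F J ω)) g a (F.t ω) n b → ∀ j' < j,
        |b (some (c j')) - eval b (Γ (ptr F J ω) j')| ≤ 2 ^ lex h c₁ D₁ j / 2 ^ gΓ j' := by
    intro j
    induction j with
    | zero => exact fun _ => ⟨B', fun _ h => h, by simp, fun ω _ b _ j' hj' => by omega⟩
    | succ j ih =>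
      intro hj
      obtain ⟨B, k1, k2, k3⟩ := ih (by omega)
      obtain ⟨M, hM⟩ : ∃ M : ℝ, M = 2 ^ (c₁ + lex h c₁ D₁ j * D₁) * (1 / 2 ^ gΓ j) := ⟨_, rfl⟩
      have hM0 : 0 < M := by rw [hM]; positivity
      have hM1 : (1 : ℝ) / 2 ^ gΓ j ≤ M := by
        rw [hM]
        exact le_mul_of_one_le_left (by positivity) (one_le_pow₀ (by norm_num))
      obtain ⟨B'', l1, l2, l3⟩ := hR B (fun ω h => hB' ω (k1 ω h)) (by
          have h1 : κ * 2 ^ r * Pe F.p B₀ ≤ κ' * Pe F.p B₀ :=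
            mul_le_mul_of_nonneg_right hκ (Pe_nonneg F.isLaw B₀)
          have h2 : κ * Pe F.p B₀ * 2 ^ r ≤ Pe F.p B' := by linarith [h1, hP']
          have h3 : (2 : ℝ) ^ j ≤ 2 ^ r := pow_le_pow_right₀ (by norm_num) (by omega)
          rw [div_le_iff₀ (by positivity)] at k2
          rcases le_or_gt (κ * Pe F.p B₀) 0 with h4 | h4
          · exact h4.trans (Pe_nonneg F.isLaw B)
          · have h5 : κ * Pe F.p B₀ * 2 ^ j ≤ Pe F.p B * 2 ^ j :=
              (mul_le_mul_of_nonneg_left h3 h4.le).trans (h2.trans k2)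
            exact le_of_mul_le_mul_right h5 (by positivity))
        (fun y => X (some (c j)) - Γ y j) (fun s => X (some (c j)) - ΓH s j) M
        (fun y => (totalDegree_sub _ _).trans (max_le (by rw [totalDegree_X]; exact hD)
          ((hL.degG y j).trans hKD))) (fun s => (totalDegree_sub _ _).trans (max_le (by
            rw [totalDegree_X]; exact hD) ((hL.degH s j).trans hKD)))
        (fun y => depC_sub (depC_X (hcc j (by omega))) (depC_perm hcc (by omega) (hL.depG y j)))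
        (fun s => depC_sub (depC_X (hcc j (by omega))) (depC_perm hcc (by omega) (hL.depH s j)))
        hM0
        (fun ω hω => by
          rw [map_sub, eval_X]
          exact (hL.pos ω (k1 ω hω) j (by omega)).trans hM1) (fun ω hω b hb => by
          rw [map_sub, map_sub, eval_X]
          have := htwo _ j (by omega) ω (k1 ω hω) b hb (k3 ω hω b hb)
          rw [← hM] at this
          have e1 : b (some (c j)) - eval b (Γ (ptr F J ω) j) - (b (some (c j)) -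
              eval b (ΓH (slam F w ω) j)) = -(eval b (Γ (ptr F J ω) j) -
                eval b (ΓH (slam F w ω) j)) := by ring
          rw [e1, abs_neg]
          exact this)
      refine ⟨B'', fun ω h => k1 ω (l1 ω h), ?_, fun ω hω b hb j' hj' => ?_⟩
      · refine le_trans (le_of_eq ?_) ((div_le_div_of_nonneg_right k2 (by norm_num)).trans l2)
        rw [pow_succ]
        field_simp
      · rcases Nat.lt_or_ge j' j with h7 | h7
        · refine (k3 ω (l1 ω hω) b hb j' h7).trans (div_le_div_of_nonneg_right ?_ (by positivity))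
          exact pow_le_pow_right₀ (by norm_num) (lex_mono hD₁)
        · have : j' = j := by omega
          subst this
          have h8 := l3 ω hω b hb
          rw [map_sub, eval_X, hM] at h8
          refine h8.trans (le_of_eq ?_)
          show _ = 2 ^ (h + c₁ + lex h c₁ D₁ j' * D₁) / 2 ^ gΓ j'
          rw [add_assoc h, pow_add]
          ring
  obtain ⟨B, k1, k2, k3⟩ := key r le_rfl
  refine ⟨B, k1, k2, fun ω hω b hb l hl => ⟨?_, ?_⟩⟩
  · refine (k3 ω hω b hb l hl).trans (div_le_div_of_nonneg_right ?_ (by positivity))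
    exact pow_le_pow_right₀ (by norm_num) (hlexC r (by omega))
  · refine (htwo _ l hl ω (k1 ω hω) b hb fun j' hj' => k3 ω hω b hb j' (by omega)).trans ?_
    rw [mul_one_div]
    refine div_le_div_of_nonneg_right ?_ (by positivity)
    refine pow_le_pow_right₀ (by norm_num) (le_trans ?_ (hlexC (r + 1) le_rfl))
    show _ ≤ h + c₁ + lex h c₁ D₁ r * D₁
    omega

/-! ### Two points of a box -/

/-- Pigeonhole: two far points with close values. -/
theorem pig {f : ℝ → ℝ} {q₀ δ ρ : ℝ} {s : ℕ} (hδ : 0 < δ) (hρ : 0 < ρ)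
    (hf : ∀ τ, |τ| ≤ ρ → |f τ - q₀| ≤ 2 ^ s * δ) : ∃ τ τ' : ℝ, |τ| ≤ ρ ∧ |τ'| ≤ ρ ∧
      |f τ - f τ'| ≤ δ ∧ ρ / 2 ^ (s + 1) ≤ |τ - τ'| := by
  obtain ⟨N, hN⟩ : ∃ N : ℕ, N = 2 ^ (s + 2) := ⟨_, rfl⟩
  have hN0 : (0 : ℝ) < N := by rw [hN]; positivity
  have hNr : (N : ℝ) = 2 ^ (s + 2) := by rw [hN]; push_cast; ring
  obtain ⟨T, hT⟩ : ∃ T : ℕ → ℝ, T = fun i : ℕ => (2 * (i : ℝ) / N - 1) * ρ := ⟨_, rfl⟩
  have hTa : ∀ i ≤ N, |T i| ≤ ρ := by
    intro i hi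
    rw [hT]
    have h1 : (i : ℝ) ≤ N := by exact_mod_cast hi
    have h2 : 0 ≤ 2 * (i : ℝ) / N := by positivity
    have h3 : 2 * (i : ℝ) / N ≤ 2 := by
      rw [div_le_iff₀ hN0]
      linarith
    show |(2 * (i : ℝ) / N - 1) * ρ| ≤ ρ
    rw [abs_mul, abs_of_pos hρ]
    have h4 : |2 * (i : ℝ) / N - 1| ≤ 1 := by
      rw [abs_le]
      constructor <;> linarith
    nlinarith
  obtain ⟨k, hk⟩ : ∃ k : ℕ → ℕ, k = fun i : ℕ => ⌊(f (T i) - q₀ + 2 ^ s * δ) / δ⌋₊ := ⟨_, rfl⟩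
  have hk0 : ∀ i ≤ N, 0 ≤ (f (T i) - q₀ + 2 ^ s * δ) / δ := by
    intro i hi
    have h1 := (abs_le.1 (hf _ (hTa i hi))).1
    exact div_nonneg (by linarith) hδ.le
  have hcard : (Finset.range (2 ^ (s + 1) + 1)).card < (Finset.range (N + 1)).card := by
    rw [Finset.card_range, Finset.card_range, hN]
    have h1 : 2 ^ (s + 1) < 2 ^ (s + 2) := Nat.pow_lt_pow_right (by norm_num) (by omega)
    omega
  obtain ⟨i, hi, j, hj, hij, he⟩ := Finset.exists_ne_map_eq_of_card_lt_of_maps_to hcard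
    (f := k) (fun i hi => by
      have hi' : i ≤ N := by
        have := Finset.mem_coe.1 hi
        rw [Finset.mem_range] at this
        omega
      rw [Finset.mem_coe, Finset.mem_range, hk, Nat.lt_succ_iff]
      refine Nat.floor_le_of_le ?_
      have h1 := (abs_le.1 (hf _ (hTa i hi'))).2
      rw [div_le_iff₀ hδ]
      push_cast
      have h2 : (2 : ℝ) ^ (s + 1) * δ = 2 ^ s * δ + 2 ^ s * δ := by ring
      linarith)
  have hi' : i ≤ N := by
    rw [Finset.mem_range] at hi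
    omega
  have hj' : j ≤ N := by
    rw [Finset.mem_range] at hj
    omega
  refine ⟨T i, T j, hTa i hi', hTa j hj', ?_, ?_⟩
  · have a1 := Nat.floor_le (hk0 i hi')
    have a2 := Nat.lt_floor_add_one ((f (T i) - q₀ + 2 ^ s * δ) / δ)
    have b1 := Nat.floor_le (hk0 j hj')
    have b2 := Nat.lt_floor_add_one ((f (T j) - q₀ + 2 ^ s * δ) / δ)
    have e1 : ⌊(f (T i) - q₀ + 2 ^ s * δ) / δ⌋₊ = ⌊(f (T j) - q₀ + 2 ^ s * δ) / δ⌋₊ := by
      have := he
      rw [hk] at this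
      exact this
    rw [e1] at a1 a2
    have c1 : (f (T i) - q₀ + 2 ^ s * δ) / δ - (f (T j) - q₀ + 2 ^ s * δ) / δ =
        (f (T i) - f (T j)) / δ := by
      field_simp
      ring
    have c2 : |(f (T i) - f (T j)) / δ| ≤ 1 := by
      rw [← c1, abs_le]
      constructor <;> linarith
    rw [abs_div, abs_of_pos hδ, div_le_one hδ] at c2
    exact c2
  · have e1 : T i - T j = 2 * ((i : ℝ) - j) / N * ρ := by
      rw [hT]
      field_simp
      ring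
    have e2 : (1 : ℝ) ≤ |(i : ℝ) - j| := by
      have h1 : ((i : ℤ) - j) ≠ 0 := by
        intro h
        exact hij (by omega)
      have h2 := Int.one_le_abs h1
      have h3 : ((|(i : ℤ) - j| : ℤ) : ℝ) = |(i : ℝ) - j| := by push_cast; rfl
      rw [← h3]
      exact_mod_cast h2
    rw [e1, abs_mul, abs_div, abs_mul, abs_of_pos hρ, abs_of_pos hN0, abs_of_pos (by norm_num : (0 : ℝ) < 2)]
    rw [hNr, div_le_iff₀ (by positivity)]
    have e3 : 2 * |(i : ℝ) - j| / 2 ^ (s + 2) * ρ * 2 ^ (s + 1) = |(i : ℝ) - j| * ρ := by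
      rw [pow_succ 2 (s + 1)]
      field_simp
    rw [e3]
    nlinarith

/-- **The free direction of the second coordinate**, if the third one is a function of the first
one up to `2 ^ (s - g 2)`. -/
theorem two_pts {c₀ : ℕ → Fin m} {G : ℕ → MvPolynomial (Option (Fin m)) ℝ} {g : ℕ → ℕ} {a s : ℕ}
    {t M : ℝ} {q R : MvPolynomial (Option (Fin m)) ℝ} (hc : Set.InjOn c₀ (Set.Iio 3))
    (hdep : ∀ l, DepC c₀ l (G l))
    (hq : ∀ b b' : Option (Fin m) → ℝ, b none = b' none → b (some (c₀ 0)) = b' (some (c₀ 0)) →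
      eval b q = eval b' q)
    (hR : ∀ b b' : Option (Fin m) → ℝ, b none = b' none → b (some (c₀ 0)) = b' (some (c₀ 0)) →
      b (some (c₀ 2)) = b' (some (c₀ 2)) → eval b R = eval b' R)
    (h1 : ∀ b, NBx c₀ G g a t 3 b → |eval b (G 2) - eval b q| ≤ 2 ^ s / 2 ^ g 2)
    (h2 : ∀ b, NBx c₀ G g a t 3 b → |b (some (c₀ 1)) - eval b R| ≤ M) :
    1 / 2 ^ g 1 ≤ 2 ^ (s + 2) * M := by
  classical
  have c01 : c₀ 0 ≠ c₀ 1 := fun h => by
    have := hc (show (0 : ℕ) < 3 by norm_num) (show (1 : ℕ) < 3 by norm_num) h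
    omega
  have c02 : c₀ 0 ≠ c₀ 2 := fun h => by
    have := hc (show (0 : ℕ) < 3 by norm_num) (show (2 : ℕ) < 3 by norm_num) h
    omega
  have c12 : c₀ 1 ≠ c₀ 2 := fun h => by
    have := hc (show (1 : ℕ) < 3 by norm_num) (show (2 : ℕ) < 3 by norm_num) h
    omega
  obtain ⟨b₀, h3, h4⟩ := pt_adapt hc hdep t (fun _ => 0) 3 le_rfl
  obtain ⟨pt, hpt⟩ : ∃ pt : ℝ → ℝ → Option (Fin m) → ℝ, pt = fun τ ξ =>
      Function.update (Function.update b₀ (some (c₀ 1)) (eval b₀ (G 1) + τ)) (some (c₀ 2)) ξ :=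
    ⟨_, rfl⟩
  have pn : ∀ τ ξ, pt τ ξ none = t := fun τ ξ => by
    rw [hpt]
    show Function.update _ _ _ _ = _
    rw [Function.update_of_ne (by simp), Function.update_of_ne (by simp), h3]
  have p0 : ∀ τ ξ, pt τ ξ (some (c₀ 0)) = b₀ (some (c₀ 0)) := fun τ ξ => by
    rw [hpt]
    show Function.update _ _ _ _ = _
    rw [Function.update_of_ne (by simpa using c02), Function.update_of_ne (by simpa using c01)]
  have p1 : ∀ τ ξ, pt τ ξ (some (c₀ 1)) = eval b₀ (G 1) + τ := fun τ ξ => by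
    rw [hpt]
    show Function.update _ _ _ _ = _
    rw [Function.update_of_ne (by simpa using c12), Function.update_self]
  have p2 : ∀ τ ξ, pt τ ξ (some (c₀ 2)) = ξ := fun τ ξ => by
    rw [hpt]
    exact Function.update_self _ _ _
  have g0 : ∀ τ ξ, eval (pt τ ξ) (G 0) = eval b₀ (G 0) := fun τ ξ =>
    hdep 0 _ _ (by rw [pn, h3]) fun l hl => by omega
  have g1 : ∀ τ ξ, eval (pt τ ξ) (G 1) = eval b₀ (G 1) := fun τ ξ =>
    hdep 1 _ _ (by rw [pn, h3]) fun l hl => by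
      have : l = 0 := by omega
      subst this
      exact p0 τ ξ
  have g2 : ∀ τ ξ ξ', eval (pt τ ξ) (G 2) = eval (pt τ ξ') (G 2) := fun τ ξ ξ' =>
    hdep 2 _ _ (by rw [pn, pn]) fun l hl => by
      rcases (show l = 0 ∨ l = 1 by omega) with rfl | rfl
      · rw [p0, p0]
      · rw [p1, p1]
  have hbox : ∀ τ ξ, |τ| ≤ 1 / 2 ^ g 1 → |ξ - eval (pt τ 0) (G 2)| ≤ 1 / 2 ^ g 2 →
      NBx c₀ G g a t 3 (pt τ ξ) := by
    intro τ ξ h5 h6
    refine ⟨by rw [pn, sub_self, abs_zero]; positivity, fun l hl => ?_⟩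
    rcases (show l = 0 ∨ l = 1 ∨ l = 2 by omega) with rfl | rfl | rfl
    · rw [p0, g0, h4 0 (by norm_num), add_zero, sub_self, abs_zero]
      positivity
    · rw [p1, g1, add_sub_cancel_left]
      exact h5
    · rw [p2, g2 τ ξ 0]
      exact h6
  obtain ⟨τ, τ', k1, k2, k3, k4⟩ := pig (f := fun τ => eval (pt τ 0) (G 2)) (q₀ := eval (pt 0 0) q)
    (δ := 1 / 2 ^ g 2) (ρ := 1 / 2 ^ g 1) (s := s) (by positivity) (by positivity) fun τ hτ => by
      have h5 := h1 _ (hbox τ (eval (pt τ 0) (G 2)) hτ (by rw [sub_self, abs_zero]; positivity))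
      rw [g2 τ _ 0, hq _ (pt 0 0) (by rw [pn, pn]) (by rw [p0, p0])] at h5
      rw [mul_one_div]
      exact h5
  obtain ⟨ξ, hξ⟩ : ∃ ξ, ξ = eval (pt τ 0) (G 2) := ⟨_, rfl⟩
  have l1 := h2 _ (hbox τ ξ k1 (by rw [hξ, sub_self, abs_zero]; positivity))
  have l2 := h2 _ (hbox τ' ξ k2 (by rw [hξ]; exact k3))
  rw [p1] at l1 l2
  rw [hR (pt τ' ξ) (pt τ ξ) (by rw [pn, pn]) (by rw [p0, p0]) (by rw [p2, p2])] at l2
  have l3 : |τ - τ'| ≤ 2 * M := by
    rw [abs_le] at l1 l2 ⊢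
    constructor <;> linarith [l1.1, l1.2, l2.1, l2.2]
  have l4 := k4.trans l3
  rw [div_le_iff₀ (by positivity)] at l4
  have e1 : (2 : ℝ) ^ (s + 2) * M = 2 * M * 2 ^ (s + 1) := by
    rw [pow_succ 2 (s + 1)]
    ring
  rw [e1]
  exact l4

/-- **The free direction of the third coordinate.** -/
theorem one_pts {c₀ : ℕ → Fin m} {G : ℕ → MvPolynomial (Option (Fin m)) ℝ} {g : ℕ → ℕ} {a : ℕ}
    {t M : ℝ} {R : MvPolynomial (Option (Fin m)) ℝ} (hc : Set.InjOn c₀ (Set.Iio 3))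
    (hdep : ∀ l, DepC c₀ l (G l))
    (hR : ∀ b b' : Option (Fin m) → ℝ, b none = b' none → b (some (c₀ 0)) = b' (some (c₀ 0)) →
      eval b R = eval b' R)
    (h2 : ∀ b, NBx c₀ G g a t 3 b → |b (some (c₀ 2)) - eval b R| ≤ M) :
    1 / 2 ^ g 2 ≤ M := by
  classical
  obtain ⟨b₀, h3, h4⟩ := pt_adapt hc hdep t (fun _ => 0) 3 le_rfl
  obtain ⟨b₁, h5, h6⟩ := pt_adapt hc hdep t (fun l => if l = 2 then 1 / 2 ^ g 2 else 0) 3 le_rfl
  obtain ⟨b₂, h7, h8⟩ := pt_adapt hc hdep t (fun l => if l = 2 then -(1 / 2 ^ g 2) else 0) 3 le_rfl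
  have e1 : b₁ (some (c₀ 0)) = b₂ (some (c₀ 0)) := by
    rw [h6 0 (by norm_num), h8 0 (by norm_num), if_neg (by norm_num), if_neg (by norm_num),
      hdep 0 b₁ b₂ (by rw [h5, h7]) fun l hl => by omega]
  have e2 : b₁ (some (c₀ 1)) = b₂ (some (c₀ 1)) := by
    rw [h6 1 (by norm_num), h8 1 (by norm_num), if_neg (by norm_num), if_neg (by norm_num),
      hdep 1 b₁ b₂ (by rw [h5, h7]) fun l hl => by
        have : l = 0 := by omega
        subst this
        exact e1]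
  have e3 : eval b₁ (G 2) = eval b₂ (G 2) := hdep 2 _ _ (by rw [h5, h7]) fun l hl => by
    rcases (show l = 0 ∨ l = 1 by omega) with rfl | rfl
    · exact e1
    · exact e2
  have hb : ∀ (b : Option (Fin m) → ℝ) (y : ℕ → ℝ), b none = t →
      (∀ l < 3, b (some (c₀ l)) = eval b (G l) + y l) → (∀ l < 3, |y l| ≤ 1 / 2 ^ g l) →
      NBx c₀ G g a t 3 b := by
    intro b y hb hy hy'
    refine ⟨by rw [hb, sub_self, abs_zero]; positivity, fun l hl => ?_⟩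
    rw [hy l hl, add_sub_cancel_left]
    exact hy' l hl
  have l1 := h2 b₁ (hb b₁ _ h5 h6 fun l _ => by
    split_ifs with h
    · rw [h, abs_of_pos (by positivity)]
    · rw [abs_zero]
      positivity)
  have l2 := h2 b₂ (hb b₂ _ h7 h8 fun l _ => by
    split_ifs with h
    · rw [h, abs_neg, abs_of_pos (by positivity)]
    · rw [abs_zero]
      positivity)
  rw [h6 2 (by norm_num), if_pos rfl, hR b₁ b₂ (by rw [h5, h7]) e1, e3] at l1
  rw [h8 2 (by norm_num), if_pos rfl] at l2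
  rw [abs_le] at l1 l2
  linarith [l1.2, l2.1]

/-- **The free direction of the first coordinate.** -/
theorem zer_pts {c₀ : ℕ → Fin m} {G : ℕ → MvPolynomial (Option (Fin m)) ℝ} {g : ℕ → ℕ} {a : ℕ}
    {t M : ℝ} {R : MvPolynomial (Option (Fin m)) ℝ} (hc : Set.InjOn c₀ (Set.Iio 3))
    (hdep : ∀ l, DepC c₀ l (G l))
    (hR : ∀ b b' : Option (Fin m) → ℝ, b none = b' none → eval b R = eval b' R)
    (h2 : ∀ b, NBx c₀ G g a t 3 b → |b (some (c₀ 0)) - eval b R| ≤ M) :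
    1 / 2 ^ g 0 ≤ M := by
  classical
  obtain ⟨b₁, h5, h6⟩ := pt_adapt hc hdep t (fun l => if l = 0 then 1 / 2 ^ g 0 else 0) 3 le_rfl
  obtain ⟨b₂, h7, h8⟩ := pt_adapt hc hdep t (fun l => if l = 0 then -(1 / 2 ^ g 0) else 0) 3 le_rfl
  have hb : ∀ (b : Option (Fin m) → ℝ) (y : ℕ → ℝ), b none = t →
      (∀ l < 3, b (some (c₀ l)) = eval b (G l) + y l) → (∀ l < 3, |y l| ≤ 1 / 2 ^ g l) →
      NBx c₀ G g a t 3 b := by
    intro b y hb hy hy'
    refine ⟨by rw [hb, sub_self, abs_zero]; positivity, fun l hl => ?_⟩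
    rw [hy l hl, add_sub_cancel_left]
    exact hy' l hl
  have l1 := h2 b₁ (hb b₁ _ h5 h6 fun l _ => by
    split_ifs with h
    · rw [h, abs_of_pos (by positivity)]
    · rw [abs_zero]
      positivity)
  have l2 := h2 b₂ (hb b₂ _ h7 h8 fun l _ => by
    split_ifs with h
    · rw [h, abs_neg, abs_of_pos (by positivity)]
    · rw [abs_zero]
      positivity)
  rw [h6 0 (by norm_num), if_pos rfl, hR b₁ b₂ (by rw [h5, h7]),
    hdep 0 b₁ b₂ (by rw [h5, h7]) fun l hl => by omega] at l1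
  rw [h8 0 (by norm_num), if_pos rfl] at l2
  rw [abs_le] at l1 l2
  linarith [l1.2, l2.1]

/-! ### The exchanged list -/

theorem ex_of_pos {F : Fam m J} {A : F.Ω → Prop} (h : 0 < Pe F.p A) : ∃ ω, A ω := by
  by_contra hcon
  push Not at hcon
  have h1 : Pe F.p A = 0 := by
    unfold Pe
    exact Finset.sum_eq_zero fun ω _ => if_neg fun h => hcon ω (of_eq_true h)
  linarith

theorem le_of_inv {x y n : ℕ} (h : (1 : ℝ) / 2 ^ x ≤ 2 ^ n / 2 ^ y) : y ≤ x + n := by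
  rw [div_le_div_iff₀ (by positivity) (by positivity), one_mul, ← pow_add] at h
  have h1 := (pow_le_pow_iff_right₀ (by norm_num : (1 : ℝ) < 2)).1 h
  omega

theorem sw_cc (c : ℕ → Fin m) {r : ℕ} (hr : r ≤ 3) (l : ℕ) (hl : l < r) :
    ∃ l' < 3, (fun l => c (sw 1 l)) l' = c l := by
  rcases (show l = 0 ∨ l = 1 ∨ l = 2 by omega) with rfl | rfl | rfl
  · exact ⟨0, by norm_num, rfl⟩
  · exact ⟨2, by norm_num, rfl⟩
  · exact ⟨1, by norm_num, rfl⟩

theorem sw_inj {c : ℕ → Fin m} (hc : Set.InjOn c (Set.Iio 4)) :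
    Set.InjOn (fun l => c (sw 1 l)) (Set.Iio 3) := by
  intro x hx y hy h
  have hx' : x < 3 := hx
  have hy' : y < 3 := hy
  have h1 : sw 1 x < 4 := by
    rcases (show x = 0 ∨ x = 1 ∨ x = 2 by omega) with rfl | rfl | rfl <;> decide
  have h2 : sw 1 y < 4 := by
    rcases (show y = 0 ∨ y = 1 ∨ y = 2 by omega) with rfl | rfl | rfl <;> decide
  have h3 := hc h1 h2 h
  have h4 := Pool.SWP.sw_sw 1 x
  rw [h3, Pool.SWP.sw_sw] at h4
  exact h4.symm

/-- **The first two places** of the exchanged list are not better than the box. -/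
theorem fin01 (K r : ℕ) (hr : r < 2) : ∃ C : ℕ, 1 ≤ C ∧ ∀ {m J : ℕ} {F : Fam m J}
    {c : ℕ → Fin m} {a w h Dr : ℕ} {g gΓ : ℕ → ℕ} {κ κ' : ℝ} {B₀ B' : F.Ω → Prop}
    {G Γ : PtT F → ℕ → MvPolynomial (Option (Fin m)) ℝ}
    {ΓH : LnT F → ℕ → MvPolynomial (Option (Fin m)) ℝ}, Set.InjOn c (Set.Iio 4) → K ≤ Dr →
    1 ≤ Dr → (∀ y l, DepC (fun l => c (sw 1 l)) l (G y l)) →
    RelvF F (fun l => c (sw 1 l)) 3 a w g Dr h κ B₀ G → Sub B' B₀ → 0 < Pe F.p B' →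
    κ' * Pe F.p B₀ ≤ Pe F.p B' → κ * 2 ^ (r + 1) ≤ κ' → TwoS F c (r + 1) K a w gΓ B' Γ ΓH →
    gΓ r ≤ g (sw 1 r) + C * (h + 1) := by
  obtain ⟨C, hC, hmov⟩ := mov_perm K (r + 1)
  refine ⟨C, hC, ?_⟩
  intro m J F c a w h Dr g gΓ κ κ' B₀ B' G Γ ΓH hc hKD hD hdep hR hB' hP hP' hκ hL
  obtain ⟨B, -, k2, k3⟩ := hmov (hc.mono (Set.Iio_subset_Iio (by omega))) hKD hD
    (sw_cc c (by omega)) hR hB' hP' hκ hL
  obtain ⟨ω, hω⟩ := ex_of_pos (lt_of_lt_of_le (by positivity) k2)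
  rcases (show r = 0 ∨ r = 1 by omega) with rfl | rfl
  · have h1 := zer_pts (R := Γ (ptr F J ω) 0) (sw_inj hc) (hdep _)
      (fun b b' hb => hL.depG _ 0 b b' hb fun l hl => by omega)
      fun b hb => (k3 ω hω b hb 0 (by norm_num)).1
    exact le_of_inv h1
  · have h1 := one_pts (R := Γ (ptr F J ω) 1) (sw_inj hc) (hdep _)
      (fun b b' hb h0 => hL.depG _ 1 b b' hb fun l hl => by
        have : l = 0 := by omega
        subst this
        exact h0)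
      fun b hb => (k3 ω hω b hb 1 (by norm_num)).1
    exact le_of_inv h1

/-- **The third place** of the exchanged list, if the second place has a label of the full level over
the first one, up to `2 ^ p`. -/
theorem fin2 (K Ks D : ℕ) : ∃ C : ℕ, 1 ≤ C ∧ ∀ {m J : ℕ} {F : Fam m J}
    {c : ℕ → Fin m} {a w e h p Dr : ℕ} {g gΓ gS : ℕ → ℕ} {κ κ' : ℝ} {B₀ B' : F.Ω → Prop}
    {G Γ U : PtT F → ℕ → MvPolynomial (Option (Fin m)) ℝ}
    {H ΓH UH : LnT F → ℕ → MvPolynomial (Option (Fin m)) ℝ}, Set.InjOn c (Set.Iio 4) → K ≤ Dr →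
    Ks ≤ Dr → D ≤ Dr → 1 ≤ Dr →
    ChOK F (fun l => c (sw 1 l)) 4 (fun _ => D) a w e g B₀ G H →
    RelvF F (fun l => c (sw 1 l)) 3 a w g Dr h κ B₀ G → Sub B' B₀ → 0 < Pe F.p B' →
    κ' * Pe F.p B₀ ≤ Pe F.p B' → 0 ≤ κ → κ * 32 ≤ κ' → TwoS F c 3 K a w gΓ B' Γ ΓH →
    TwoS F c 2 Ks a w gS B' U UH → g 2 ≤ gS 1 + p →
    gΓ 2 ≤ g 1 + p + C * (h + 1) := by
  obtain ⟨C₁, hC₁, hmov₁⟩ := mov_perm K 3
  obtain ⟨C₂, hC₂, hmov₂⟩ := mov_perm Ks 2
  refine ⟨C₁ + C₂ + 3, by omega, ?_⟩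
  intro m J F c a w e h p Dr g gΓ gS κ κ' B₀ B' G Γ U H ΓH UH hc hK hKs hDD hD hG hR hB' hP hP'
    hκ0 hκ hL hL₂ hp
  have hF := Pe_nonneg F.isLaw B₀
  obtain ⟨B₁, k1, k2, k3⟩ := hmov₁ (hc.mono (Set.Iio_subset_Iio (by omega))) hK hD
    (sw_cc c le_rfl) hR hB' hP' (by linarith) hL
  have hP1 : 0 < Pe F.p B₁ := lt_of_lt_of_le (by positivity) k2
  have k2' : κ' / 8 * Pe F.p B₀ ≤ Pe F.p B₁ := by
    have e1 : κ' / 8 * Pe F.p B₀ = κ' * Pe F.p B₀ / 2 ^ 3 := by ring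
    rw [e1]
    exact (div_le_div_of_nonneg_right hP' (by positivity)).trans k2
  obtain ⟨B₂, l1, l2, l3⟩ := hmov₂ (κ' := κ' / 8) (hc.mono (Set.Iio_subset_Iio (by omega))) hKs hD
    (sw_cc c (by norm_num)) hR (fun ω h => hB' ω (k1 ω h)) k2' (by linarith) (hL₂.sub k1)
  have hP2 : 0 < Pe F.p B₂ := lt_of_lt_of_le (by positivity) l2
  have l2' : κ * Pe F.p B₀ ≤ Pe F.p B₂ := by
    refine le_trans ?_ l2
    rw [le_div_iff₀ (by positivity)]
    refine le_trans ?_ k2'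
    have h5 := mul_le_mul_of_nonneg_right hκ hF
    linarith
  have hB2 : ∀ ω, B₂ ω → B₀ ω := fun ω h => hB' ω (k1 ω (l1 ω h))
  obtain ⟨X₂, hX₂⟩ : ∃ X₂ : ℕ, X₂ = C₂ * (h + 1) + p + 1 := ⟨_, rfl⟩
  have e2 : (1 : ℝ) / 2 ^ gS 1 ≤ 2 ^ p / 2 ^ g 2 := by
    rw [div_le_div_iff₀ (by positivity) (by positivity), one_mul, ← pow_add]
    exact pow_le_pow_right₀ (by norm_num) (by omega)
  have e3 : (2 : ℝ) ^ (C₂ * (h + 1)) / 2 ^ gS 1 ≤ 2 ^ (C₂ * (h + 1) + p) / 2 ^ g 2 := by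
    rw [div_le_div_iff₀ (by positivity) (by positivity), ← pow_add, ← pow_add]
    exact pow_le_pow_right₀ (by norm_num) (by omega)
  have e4 : (2 : ℝ) ^ p / 2 ^ g 2 ≤ 2 ^ (C₂ * (h + 1) + p) / 2 ^ g 2 :=
    div_le_div_of_nonneg_right (pow_le_pow_right₀ (by norm_num) (by omega)) (by positivity)
  have e5 : (1 : ℝ) / 2 ^ g 2 ≤ 2 ^ (C₂ * (h + 1) + p) / 2 ^ g 2 :=
    div_le_div_of_nonneg_right (one_le_pow₀ (by norm_num)) (by positivity)
  have e6 : (2 : ℝ) ^ X₂ / 2 ^ g 2 = 2 ^ (C₂ * (h + 1) + p) / 2 ^ g 2 +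
      2 ^ (C₂ * (h + 1) + p) / 2 ^ g 2 := by
    rw [hX₂, pow_succ]
    ring
  obtain ⟨B₃, m1, m2, m3⟩ := hR B₂ hB2 l2' (fun y => G y 2 - U y 1) (fun s => H s 2 - UH s 1)
    (2 ^ X₂ / 2 ^ g 2)
    (fun y => (totalDegree_sub _ _).trans (max_le ((hG.degG y 2).trans hDD)
      ((hL₂.degG y 1).trans hKs)))
    (fun s => (totalDegree_sub _ _).trans (max_le ((hG.degH s 2).trans hDD)
      ((hL₂.degH s 1).trans hKs)))
    (fun y => depC_sub ((hG.depG y 2).mono (by norm_num)) (depC_perm (r := 3) (sw_cc c le_rfl)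
      (by norm_num) (hL₂.depG y 1)))
    (fun s => depC_sub ((hG.depH s 2).mono (by norm_num)) (depC_perm (r := 3) (sw_cc c le_rfl)
      (by norm_num) (hL₂.depH s 1)))
    (by positivity)
    (fun ω hω => by
      rw [map_sub, e6]
      have h5 := hG.pos ω (hB2 ω hω) 2 (by norm_num)
      have h6 := hL₂.pos ω (k1 ω (l1 ω hω)) 1 (by norm_num)
      have h7 : |eval (bt F ω) (G (ptr F J ω) 2) - eval (bt F ω) (U (ptr F J ω) 1)| ≤
          1 / 2 ^ g 2 + 1 / 2 ^ gS 1 := by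
        have e7 : F.x ω (c (sw 1 2)) = F.x ω (c 1) := rfl
        have h5' : |F.x ω (c (sw 1 2)) - eval (bt F ω) (G (ptr F J ω) 2)| ≤ 1 / 2 ^ g 2 := h5
        rw [e7] at h5'
        rw [abs_le] at h5' h6 ⊢
        constructor <;> linarith only [h5'.1, h5'.2, h6.1, h6.2]
      linarith only [h7, e2, e4, e5])
    (fun ω hω b hb => by
      rw [map_sub, map_sub, e6]
      have h5 := hG.agr ω (hB2 ω hω) 2 (by norm_num) b (hb.mono le_rfl (by norm_num))
      have h6 := (l3 ω hω b hb 1 (by norm_num)).2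
      rw [abs_le] at h5 h6 ⊢
      constructor <;> linarith only [h5.1, h5.2, h6.1, h6.2, e3, e5])
  have hP3 : 0 < Pe F.p B₃ := lt_of_lt_of_le (by positivity) m2
  obtain ⟨ω, hω⟩ := ex_of_pos hP3
  have h1 := two_pts (s := h + X₂) (q := U (ptr F J ω) 1) (R := Γ (ptr F J ω) 2) (sw_inj hc)
    (hG.depG _)
    (fun b b' hb h0 => hL₂.depG _ 1 b b' hb fun l hl => by
      have : l = 0 := by omega
      subst this
      exact h0)
    (fun b b' hb h0 h2 => hL.depG _ 2 b b' hb fun l hl => by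
      rcases (show l = 0 ∨ l = 1 by omega) with rfl | rfl
      · exact h0
      · exact h2)
    (fun b hb => by
      have h5 := m3 ω hω b hb
      rw [map_sub, ← mul_div_assoc, ← pow_add] at h5
      exact h5)
    (fun b hb => (k3 ω (l1 ω (m1 ω hω)) b hb 2 (by norm_num)).1)
  rw [← mul_div_assoc, ← pow_add] at h1
  have h2 := le_of_inv h1
  have h3 : (C₁ + C₂ + 3) * (h + 1) = C₁ * (h + 1) + C₂ * (h + 1) + 3 * (h + 1) := by ring
  rw [h3]
  omega

end Pool.W.N88
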